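import Pool.Agent.Helper68.Fam.Goals

/-!
# Project FAM (MP_18808e_co): KILL
-/

namespace NApexGraphs.Fam.Helper25

open SimpleGraph NApexGraphs NApexGraphs.Dom NApexGraphs.Fam NApexGraphs.Fam.Goals

/-- The common end of all cases. -/
private lemma two_erase {V : Type} [DecidableEq V] {H : SimpleGraph V} {P A B : Finset V}
    {S : Finset (Finset V)} (h : Two H P A B S) {T : Finset V} (hT : T ∈ S) {z : V} (hz : z ∈ P)
    (hk : ∀ x ∈ P, ∀ y ∈ P, x ≠ z → y ≠ z → x ≠ y → x ∈ T → y ∈ T →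
      (x ∈ A ∧ y ∈ A) ∨ (x ∈ B ∧ y ∈ B)) :
    Two H (P.erase z) A B (S.erase T) where
  cA := h.cA
  cB := h.cB
  dis := h.dis
  cT := fun T' hT' => h.cT T' (Finset.mem_of_mem_erase hT')
  pair := fun T1 h1 T2 h2 hne =>
    h.pair T1 (Finset.mem_of_mem_erase h1) T2 (Finset.mem_of_mem_erase h2) hne
  card := by
    have h1 := h.card
    have h2 : 0 < S.card := Finset.card_pos.mpr ⟨T, hT⟩
    rw [Finset.card_erase_of_mem hT, Finset.card_erase_of_mem hz]
    omega
  adj := by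
    intro x hx y hy hne hA hB hS
    have hx' := Finset.mem_erase.mp hx
    have hy' := Finset.mem_erase.mp hy
    refine h.adj x hx'.2 y hy'.2 hne hA hB ?_
    intro T' hT' hxy
    by_cases hTT : T' = T
    · subst hTT
      rcases hk x hx'.2 y hy'.2 hx'.1 hy'.1 hne hxy.1 hxy.2 with h1 | h1
      · exact hA h1
      · exact hB h1
    · exact hS T' (Finset.mem_erase.mpr ⟨hTT, hT'⟩) hxy

/-- If `T` has at most three and `T ∩ A` at least two elements, one point of `P` removes all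
elements of `T ∩ P` outside `A`. -/
private lemma exists_z {V : Type} [DecidableEq V] {P A T : Finset V} (hP : P.Nonempty)
    (hT : T.card ≤ 3) (hA : 2 ≤ (T ∩ A).card) :
    ∃ z ∈ P, ∀ x ∈ P, x ≠ z → x ∈ T → x ∈ A := by
  have h1 : (T \ A).card ≤ 1 := by
    have := Finset.card_sdiff_add_card_inter T A
    omega
  by_cases hz : ∃ z ∈ P, z ∈ T \ A
  · obtain ⟨z, hzP, hz⟩ := hz
    refine ⟨z, hzP, fun x _ hxz hxT => ?_⟩
    by_contra hxA
    exact hxz (Finset.card_le_one.mp h1 x (Finset.mem_sdiff.mpr ⟨hxT, hxA⟩) z hz)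
  · obtain ⟨z, hzP⟩ := hP
    refine ⟨z, hzP, fun x hxP _ hxT => ?_⟩
    by_contra hxA
    exact hz ⟨x, hxP, Finset.mem_sdiff.mpr ⟨hxT, hxA⟩⟩

/-- **KILL**. -/
theorem gKILL : Goals.KILL := by
  intro V _ H P A B S h T hT hcase
  have hP : P.Nonempty := by
    apply Finset.card_pos.mp
    have := h.card
    omega
  rcases hcase with h2 | h2 | h2
  · by_cases hz : (T ∩ P).Nonempty
    · obtain ⟨z, hz⟩ := hz
      have hz' := Finset.mem_inter.mp hz
      refine ⟨z, hz'.2, two_erase h hT hz'.2 ?_⟩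
      intro x hx y hy hxz hyz hxy hxT hyT
      exfalso
      have h3 : ({x, y, z} : Finset V) ⊆ T ∩ P := by
        intro w hw
        simp only [Finset.mem_insert, Finset.mem_singleton] at hw
        rcases hw with rfl | rfl | rfl
        · exact Finset.mem_inter.mpr ⟨hxT, hx⟩
        · exact Finset.mem_inter.mpr ⟨hyT, hy⟩
        · exact hz
      have h4 : ({x, y, z} : Finset V).card = 3 := Finset.card_eq_three.mpr
        ⟨x, y, z, hxy, hxz, hyz, rfl⟩
      have h5 := Finset.card_le_card h3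
      omega
    · obtain ⟨z, hzP⟩ := hP
      refine ⟨z, hzP, two_erase h hT hzP ?_⟩
      intro x hx y _ _ _ _ hxT _
      exact absurd ⟨x, Finset.mem_inter.mpr ⟨hxT, hx⟩⟩ hz
  · obtain ⟨z, hzP, hz⟩ := exists_z hP (h.cT T hT) h2
    exact ⟨z, hzP, two_erase h hT hzP fun x hx y hy hxz hyz _ hxT hyT =>
      Or.inl ⟨hz x hx hxz hxT, hz y hy hyz hyT⟩⟩
  · obtain ⟨z, hzP, hz⟩ := exists_z hP (h.cT T hT) h2
    exact ⟨z, hzP, two_erase h hT hzP fun x hx y hy hxz hyz _ hxT hyT =>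
      Or.inr ⟨hz x hx hxz hxT, hz y hy hyz hyT⟩⟩

end NApexGraphs.Fam.Helper25
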